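import Pool.Agent.Helper55_SKQ.MOLa

/-!
# SKQ, row MOL
-/

set_option autoImplicit false

namespace Pool.Agent.SKQ.H55

open Metric Set Filter Topology MeasureTheory ContinuousLinearMap
open scoped ENNReal Convolution
open Helper22QC

variable {n : ℕ}

theorem exf_continuousOn (f : HB n) : ContinuousOn (exf f) (closedBall (0 : E n) 1) := by
  rw [continuousOn_iff_continuous_domRestrict]
  have e : (closedBall (0 : E n) 1).domRestrict (exf f) = fun x => ((f x : CB n) : E n) := by
    funext x
    show exf f (x : E n) = _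
    unfold exf
    rw [dif_pos x.2]
  rw [e]
  exact continuous_subtype_val.comp f.continuous

/-- the derivative of the mollified function -/
theorem deriv_moll {f : HB n} {F F₂ : E n → Mt n} (hW : WDer f F) {r r' : ℝ} (hr' : r' < 1)
    (hF₂ : ∀ᵐ y, y ∈ closedBall (0 : E n) r' → F y = F₂ y) (hi : Integrable F₂ volume)
    (hg : Integrable ((closedBall (0 : E n) r').indicator (exf f)) volume)
    (φ : ContDiffBump (0 : E n)) (hφ : φ.rOut < r' - r) {x : E n} (hx : ‖x‖ < r) :
    fderiv ℝ (φ.normed volume ⋆[lsmul ℝ ℝ, volume] ((closedBall (0 : E n) r').indicator (exf f))) x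
      = ∫ y, φ.normed volume (x - y) • F₂ y := by
  set ρ : E n → ℝ := φ.normed volume with hρ
  set g : E n → E n := (closedBall (0 : E n) r').indicator (exf f) with hgdef
  have hρc : ContDiff ℝ (⊤ : ℕ∞) ρ := φ.contDiff_normed
  have hρ1 : ContDiff ℝ 1 ρ := hρc.of_le (by exact_mod_cast le_top)
  have hρs : HasCompactSupport ρ := φ.hasCompactSupport_normed
  have hfd := hρs.hasFDerivAt_convolution_left (lsmul ℝ ℝ) hρ1 hg.locallyIntegrable x
  rw [hfd.fderiv]
  obtain ⟨K, hK⟩ := φ.continuous_normed.bounded_above_of_compact_support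
    (φ.hasCompactSupport_normed (μ := volume))
  have hiF : Integrable (fun y => ρ (x - y) • F₂ y) volume := by
    refine Integrable.mono' (hi.norm.const_mul K) ?_ ?_
    · exact ((hρc.continuous.comp (continuous_const.sub continuous_id)).aestronglyMeasurable).smul
        hi.aestronglyMeasurable
    · refine Eventually.of_forall fun y => ?_
      rw [norm_smul]
      exact mul_le_mul_of_nonneg_right (hK _) (norm_nonneg _)
  -- support
  have hsupp : ∀ y : E n, r' < ‖y‖ → ρ (x - y) = 0 ∧ fderiv ℝ ρ (x - y) = 0 := by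
    intro y hy
    have hn : φ.rOut < ‖x - y‖ := by
      have : ‖y‖ ≤ ‖x - y‖ + ‖x‖ := by
        calc ‖y‖ = ‖x - (x - y)‖ := by rw [sub_sub_cancel]
          _ ≤ ‖x‖ + ‖x - y‖ := norm_sub_le _ _
          _ = _ := add_comm _ _
      linarith
    have hts : x - y ∉ tsupport ρ := by
      rw [hρ, φ.tsupport_normed_eq, mem_closedBall_zero_iff, not_le]
      exact hn
    refine ⟨image_eq_zero_of_notMem_tsupport hts, ?_⟩
    exact image_eq_zero_of_notMem_tsupport fun h => hts (tsupport_fderiv_subset ℝ h)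
  -- the test function
  have hcomp : ∀ y v, fderiv ℝ (fun y => ρ (x - y)) y v = - fderiv ℝ ρ (x - y) v := by
    intro y v
    have h1 : HasFDerivAt (fun y : E n => x - y) (-ContinuousLinearMap.id ℝ (E n)) y :=
      (hasFDerivAt_id y).const_sub x
    have h2 : HasFDerivAt ρ (fderiv ℝ ρ (x - y)) (x - y) :=
      (hρ1.differentiable one_ne_zero _).hasFDerivAt
    have h3 := h2.comp y h1
    have h4 : fderiv ℝ (fun y => ρ (x - y)) y =
        (fderiv ℝ ρ (x - y)).comp (-ContinuousLinearMap.id ℝ (E n)) := h3.fderiv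
    rw [h4]
    simp
  have htest := hW.weak (fun y => ρ (x - y)) (hρc.comp (contDiff_const.sub contDiff_id))
    (by
      refine HasCompactSupport.of_support_subset_isCompact (isCompact_closedBall (0 : E n) r')
        fun y hy => ?_
      by_contra h
      rw [mem_closedBall_zero_iff, not_le] at h
      exact hy (hsupp y h).1)
    (by
      have h1 : tsupport (fun y => ρ (x - y)) ⊆ closedBall (0 : E n) r' := by
        refine closure_minimal (fun y hy => ?_) isClosed_closedBall
        by_contra h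
        rw [mem_closedBall_zero_iff, not_le] at h
        exact hy (hsupp y h).1
      exact h1.trans (closedBall_subset_ball hr'))
  refine ContinuousLinearMap.ext fun v => ?_
  rw [ContinuousLinearMap.integral_apply hiF v]
  -- left side
  have hex : ConvolutionExists (fderiv ℝ ρ) g ((lsmul ℝ ℝ).precompL (E n)) volume :=
    (hρs.fderiv ℝ).convolutionExists_left _ (hρ1.continuous_fderiv one_ne_zero)
      hg.locallyIntegrable
  have hL : ((fderiv ℝ ρ ⋆[(lsmul ℝ ℝ).precompL (E n), volume] g) x) v =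
      ∫ t, (fderiv ℝ ρ t v) • g (x - t) := by
    rw [convolution_def, ContinuousLinearMap.integral_apply (hex x) v]
    rfl
  rw [hL]
  have e1 : ∫ t, (fderiv ℝ ρ t v) • g (x - t) = ∫ y, (fderiv ℝ ρ (x - y) v) • g y := by
    have h := integral_sub_left_eq_self (fun t => (fderiv ℝ ρ t v) • g (x - t)) volume x
    rw [← h]
    refine integral_congr_ae (Eventually.of_forall fun y => ?_)
    simp only [sub_sub_cancel]
  have e2 : ∫ y, (fderiv ℝ ρ (x - y) v) • g y =
      ∫ y in ball (0 : E n) 1, (fderiv ℝ ρ (x - y) v) • exf f y := by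
    rw [← integral_indicator measurableSet_ball]
    refine integral_congr_ae (Eventually.of_forall fun y => ?_)
    show (fderiv ℝ ρ (x - y) v) • g y =
      (ball (0 : E n) 1).indicator (fun y => (fderiv ℝ ρ (x - y) v) • exf f y) y
    by_cases hy : r' < ‖y‖
    · have h0 := (hsupp y hy).2
      have h1 : (ball (0 : E n) 1).indicator (fun y => (fderiv ℝ ρ (x - y) v) • exf f y) y = 0 := by
        by_cases hb : y ∈ ball (0 : E n) 1
        · rw [indicator_of_mem hb, h0]; simp
        · exact indicator_of_notMem hb _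
      rw [h1, h0]; simp
    · push Not at hy
      rw [indicator_of_mem (mem_ball_zero_iff.2 (by linarith))]
      rw [hgdef, indicator_of_mem (mem_closedBall_zero_iff.2 hy)]
  have e3 : ∫ y in ball (0 : E n) 1, (fderiv ℝ ρ (x - y) v) • exf f y =
      ∫ y in ball (0 : E n) 1, ρ (x - y) • F y v := by
    have h1 := htest v
    simp only [hcomp, neg_smul] at h1
    rw [integral_neg] at h1
    exact neg_injective h1
  have e4 : ∫ y in ball (0 : E n) 1, ρ (x - y) • F y v = ∫ y, (ρ (x - y) • F₂ y) v := by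
    rw [← integral_indicator measurableSet_ball]
    refine integral_congr_ae ?_
    filter_upwards [hF₂] with y hy
    by_cases hy' : r' < ‖y‖
    · have h0 := (hsupp y hy').1
      have h1 : (ball (0 : E n) 1).indicator (fun y => ρ (x - y) • F y v) y = 0 := by
        by_cases hb : y ∈ ball (0 : E n) 1
        · rw [indicator_of_mem hb, h0, zero_smul]
        · exact indicator_of_notMem hb _
      rw [h1, h0]
      have h2 : ((0 : ℝ) • F₂ y) v = (0 : ℝ) • (F₂ y v) := rfl
      rw [h2, zero_smul]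
    · push Not at hy'
      rw [indicator_of_mem (mem_ball_zero_iff.2 (by linarith)),
        hy (mem_closedBall_zero_iff.2 hy')]
      rfl
  rw [e1, e2, e3, e4]

theorem exists_bumps {δ : ℝ} (hδ : 0 < δ) : ∃ φ : ℕ → ContDiffBump (0 : E n),
    (∀ k, (φ k).rOut < δ) ∧ Tendsto (fun k => (φ k).rOut) atTop (𝓝 0) := by
  refine ⟨fun k =>
    { rIn := δ / (2 * (k + 2))
      rOut := δ / (k + 2)
      rIn_pos := by positivity
      rIn_lt_rOut := by
        have hk : (0 : ℝ) < k + 2 := by positivity
        rw [div_lt_div_iff_of_pos_left hδ (by positivity) hk]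
        linarith }, ?_, ?_⟩
  · intro k
    show δ / ((k : ℝ) + 2) < δ
    rw [div_lt_iff₀ (by positivity)]
    have : (0 : ℝ) ≤ k := Nat.cast_nonneg k
    nlinarith
  · show Tendsto (fun k : ℕ => δ / ((k : ℝ) + 2)) atTop (𝓝 0)
    have h1 : Tendsto (fun k : ℕ => (k : ℝ) + 2) atTop atTop :=
      tendsto_atTop_add_const_right _ _ tendsto_natCast_atTop_atTop
    exact h1.const_div_atTop _

/-- the mollified map -/
noncomputable def mo (f : HB n) (r' : ℝ) (φ : ContDiffBump (0 : E n)) : E n → E n :=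
  φ.normed volume ⋆[lsmul ℝ ℝ, volume] ((closedBall (0 : E n) r').indicator (exf f))

theorem ind_integrable (f : HB n) {r' : ℝ} (hr' : r' < 1) :
    Integrable ((closedBall (0 : E n) r').indicator (exf f)) volume :=
  (integrable_indicator_iff measurableSet_closedBall).2
    (((exf_continuousOn f).mono (closedBall_subset_closedBall hr'.le)).integrableOn_compact
      (isCompact_closedBall _ _))

theorem mo_smooth (f : HB n) {r' : ℝ} (hr' : r' < 1) (φ : ContDiffBump (0 : E n)) :
    ContDiff ℝ (⊤ : ℕ∞) (mo f r' φ) :=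
  φ.hasCompactSupport_normed.contDiff_convolution_left (lsmul ℝ ℝ)
      φ.contDiff_normed (ind_integrable f hr').locallyIntegrable

theorem mo_uniform (f : HB n) {r r' : ℝ} (hr' : r' < 1) {C : Set (E n)}
    (hCr : ∀ x ∈ C, ‖x‖ < r) (hCB : C ⊆ closedBall (0 : E n) r') (φ : ℕ → ContDiffBump (0 : E n))
    (hφlt : ∀ k, (φ k).rOut < r' - r) (hφ0 : Tendsto (fun k => (φ k).rOut) atTop (𝓝 0)) :
    TendstoUniformlyOn (fun k => mo f r' (φ k)) (exf f) atTop C := by
  have hg := ind_integrable f hr'
  have hfB : ContinuousOn (exf f) (closedBall (0 : E n) r') :=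
    (exf_continuousOn f).mono (closedBall_subset_closedBall hr'.le)
  rw [Metric.tendstoUniformlyOn_iff]
  intro ε hε
  have huc := (isCompact_closedBall (0 : E n) r').uniformContinuousOn_of_continuous hfB
  rw [Metric.uniformContinuousOn_iff] at huc
  obtain ⟨δ, hδ1, hδ2⟩ := huc (ε / 2) (by positivity)
  filter_upwards [hφ0.eventually (gt_mem_nhds hδ1)] with k hk x hx
  have hxB := hCB hx
  have hgx : (closedBall (0 : E n) r').indicator (exf f) x = exf f x := indicator_of_mem hxB _
  have h1 := (φ k).dist_normed_convolution_le (g := (closedBall (0 : E n) r').indicator (exf f))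
    (x₀ := x) (ε := ε / 2) hg.aestronglyMeasurable (by
      intro y hy
      rw [mem_ball] at hy
      have hyB : y ∈ closedBall (0 : E n) r' := by
        rw [mem_closedBall_zero_iff]
        have h2 : ‖y‖ ≤ ‖y - x‖ + ‖x‖ := by
          calc ‖y‖ = ‖(y - x) + x‖ := by rw [sub_add_cancel]
            _ ≤ _ := norm_add_le _ _
        rw [dist_eq_norm] at hy
        have := hCr x hx
        have := hφlt k
        linarith
      rw [hgx, indicator_of_mem hyB]
      exact (hδ2 y hyB x hxB (hy.trans hk)).le)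
  rw [hgx, dist_comm] at h1
  exact lt_of_le_of_lt h1 (by linarith)

theorem mo_deriv {f : HB n} {F F₂ : E n → Mt n} (hn : 1 ≤ n) (hW : WDer f F) {r r' : ℝ}
    (hr' : r' < 1) (hae : ∀ᵐ y, y ∈ closedBall (0 : E n) r' → F y = F₂ y)
    (hm2 : StronglyMeasurable F₂) (hi2 : Integrable F₂ volume) (hL2 : MemLp F₂ n volume)
    {C : Set (E n)} (hC : MeasurableSet C) (hCr : ∀ x ∈ C, ‖x‖ < r)
    (hCB : C ⊆ closedBall (0 : E n) r') (φ : ℕ → ContDiffBump (0 : E n))
    (hφlt : ∀ k, (φ k).rOut < r' - r) (hφ0 : Tendsto (fun k => (φ k).rOut) atTop (𝓝 0)) :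
    Tendsto (fun k => ∫ x in C, ‖fderiv ℝ (mo f r' (φ k)) x - F x‖ ^ n) atTop (𝓝 0) := by
  have hlim := moll_lp hn hm2 hi2 hL2 φ hφ0
  have haeC : ∀ᵐ x ∂(volume.restrict C), F x = F₂ x := by
    rw [ae_restrict_iff' hC]
    filter_upwards [hae] with x hx hxC
    exact hx (hCB hxC)
  have hkey : ∀ k, ENNReal.ofReal (∫ x in C, ‖fderiv ℝ (mo f r' (φ k)) x - F x‖ ^ n) ≤
      ∫⁻ x, ‖(∫ y, (φ k).normed volume (x - y) • F₂ y) - F₂ x‖ₑ ^ n := by
    intro k
    have h1 : ∀ᵐ x ∂(volume.restrict C), ‖fderiv ℝ (mo f r' (φ k)) x - F x‖ ^ n =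
        ‖(∫ y, (φ k).normed volume (x - y) • F₂ y) - F₂ x‖ ^ n := by
      filter_upwards [haeC, ae_restrict_mem hC] with x hx hxC
      have h2 : fderiv ℝ (mo f r' (φ k)) x = ∫ y, (φ k).normed volume (x - y) • F₂ y :=
        deriv_moll hW hr' hae hi2 (ind_integrable f hr') (φ k) (hφlt k) (hCr x hxC)
      rw [h2, hx]
    rw [integral_congr_ae h1]
    refine (ENNReal.ofReal_le_ofReal (le_abs_self _)).trans ?_
    rw [← Real.norm_eq_abs, ofReal_norm]
    refine (enorm_integral_le_lintegral_enorm _).trans ?_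
    refine (setLIntegral_le_lintegral _ _).trans (le_of_eq ?_)
    refine lintegral_congr fun x => ?_
    rw [enorm_pow, enorm_norm]
  have h2 : Tendsto (fun k => ENNReal.ofReal (∫ x in C, ‖fderiv ℝ (mo f r' (φ k)) x - F x‖ ^ n))
      atTop (𝓝 0) := tendsto_of_tendsto_of_tendsto_of_le_of_le tendsto_const_nhds hlim
        (fun _ => zero_le) hkey
  have h3 := (ENNReal.tendsto_toReal ENNReal.zero_ne_top).comp h2
  rw [ENNReal.toReal_zero] at h3
  refine h3.congr fun k => ?_
  exact ENNReal.toReal_ofReal (integral_nonneg fun x => by positivity)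

theorem gen_repr {H : Type} [NormedAddCommGroup H] (hn : 1 ≤ n) {B : Set (E n)} (hB : IsCompact B)
    {F : E n → H} (hF : AEStronglyMeasurable F (volume.restrict B))
    (hi : IntegrableOn (fun x => ‖F x‖ ^ n) B) :
    ∃ F₂ : E n → H, (∀ᵐ y, y ∈ B → F y = F₂ y) ∧ StronglyMeasurable F₂ ∧ Integrable F₂ volume ∧
      MemLp F₂ n volume := by
  have hn0 : (n : ℝ≥0∞) ≠ 0 := by
    simp only [ne_eq, Nat.cast_eq_zero]; omega
  have hfin : IsFiniteMeasure (volume.restrict B) :=
    ⟨by rw [Measure.restrict_apply_univ]; exact hB.measure_lt_top⟩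
  have hmemB : MemLp F n (volume.restrict B) := by
    rw [← integrable_norm_rpow_iff hF hn0 (ENNReal.natCast_ne_top n)]
    simp only [ENNReal.toReal_natCast, Real.rpow_natCast]
    exact hi
  obtain ⟨G, hm, hae⟩ := hF
  have hmemG : MemLp G n (volume.restrict B) := hmemB.ae_eq hae
  refine ⟨B.indicator G, ?_, hm.indicator hB.measurableSet, ?_, ?_⟩
  · have h := (ae_restrict_iff' hB.measurableSet).1 hae
    filter_upwards [h] with y hy hyB
    rw [indicator_of_mem hyB]
    exact hy hyB
  · rw [integrable_indicator_iff hB.measurableSet]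
    have h := hmemG.mono_exponent (p := 1) (by exact_mod_cast hn)
    exact memLp_one_iff_integrable.1 h
  · exact (memLp_indicator_iff_restrict hB.measurableSet).2 hmemG

/-- MOL -/
theorem mol : MOLStmt := by
  intro n f F hn hW C hCsub hC
  obtain ⟨r0, hr0, hCr0⟩ := exists_lt_subset_ball hC.isClosed hCsub
  obtain ⟨r, hr1, hr00, hr0r⟩ : ∃ r : ℝ, r < 1 ∧ 0 ≤ r ∧ r0 ≤ r :=
    ⟨max r0 0, max_lt hr0 one_pos, le_max_right _ _, le_max_left _ _⟩
  have hCr : ∀ x ∈ C, ‖x‖ < r := fun x hx =>
    (mem_ball_zero_iff.1 (hCr0 hx)).trans_le hr0r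
  obtain ⟨r', hrr', hr'1⟩ := exists_between hr1
  have hCB : C ⊆ closedBall (0 : E n) r' := fun x hx =>
    mem_closedBall_zero_iff.2 ((hCr x hx).le.trans hrr'.le)
  obtain ⟨F₂, hae, hm2, hi2, hL2⟩ := gen_repr hn (isCompact_closedBall (0 : E n) r')
    (hW.meas.mono_set (closedBall_subset_ball hr'1)) (hW.int r' hr'1)
  obtain ⟨φ, hφlt, hφ0⟩ := exists_bumps (n := n) (sub_pos.2 hrr')
  exact ⟨hW.meas.mono_set hCsub, (hW.int r' hr'1).mono_set hCB,
    ⟨fun k => mo f r' (φ k), fun k => mo_smooth f hr'1 (φ k),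
      mo_uniform f hr'1 hCr hCB φ hφlt hφ0,
      mo_deriv hn hW hr'1 hae hm2 hi2 hL2 hC.measurableSet hCr hCB φ hφlt hφ0⟩⟩

end Pool.Agent.SKQ.H55
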