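import Pool.Agent.SKQ.Stmts
import Pool.Agent.SKQ.Kit

/-!
# SKQ, row MOL, part A: mollifications converge in `L^n`
-/

set_option autoImplicit false

namespace Pool.Agent.SKQ.H55

open Metric Set Filter Topology MeasureTheory
open scoped ENNReal
open Helper22QC

variable {n : ℕ} {H : Type} [NormedAddCommGroup H] [NormedSpace ℝ H] [CompleteSpace H]

omit [CompleteSpace H] [NormedSpace ℝ H] in
theorem eLpNorm_pow_nat (hn : 1 ≤ n) (h : E n → H) :
    (eLpNorm h n volume) ^ n = ∫⁻ x, ‖h x‖ₑ ^ n := by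
  have hn0 : (n : ℝ≥0∞) ≠ 0 := by
    simp only [ne_eq, Nat.cast_eq_zero]; omega
  have hn0' : (n : ℝ) ≠ 0 := by
    simp only [ne_eq, Nat.cast_eq_zero]; omega
  rw [eLpNorm_eq_lintegral_rpow_enorm_toReal hn0 (ENNReal.natCast_ne_top n)]
  simp only [ENNReal.toReal_natCast]
  rw [← ENNReal.rpow_natCast, ← ENNReal.rpow_mul, one_div, inv_mul_cancel₀ hn0', ENNReal.rpow_one]
  simp only [ENNReal.rpow_natCast]

omit [CompleteSpace H] in
/-- continuity of translations in `L^n` -/
theorem tendsto_translate (hn : 1 ≤ n) {F : E n → H} (hL : MemLp F n volume) :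
    Tendsto (fun t : E n => ∫⁻ x, ‖F (t + x) - F x‖ₑ ^ n) (𝓝 0) (𝓝 0) := by
  have : Fact ((1 : ℝ≥0∞) ≤ n) := ⟨by exact_mod_cast hn⟩
  have : Fact ((n : ℝ≥0∞) ≠ ∞) := ⟨ENNReal.natCast_ne_top n⟩
  have hc : Continuous fun t : E n => (DomAddAct.mk t) +ᵥ (hL.toLp F) :=
    (DomAddAct.continuous_mk).vadd continuous_const
  have h0 : (DomAddAct.mk (0 : E n)) +ᵥ (hL.toLp F) = hL.toLp F := by
    rw [DomAddAct.mk_zero]; exact zero_vadd _ _
  have h1 : Tendsto (fun t : E n => edist ((DomAddAct.mk t) +ᵥ (hL.toLp F)) (hL.toLp F)) (𝓝 0)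
      (𝓝 0) := by
    have h2 := (hc.tendsto 0).edist (tendsto_const_nhds (x := hL.toLp F))
    rw [h0, edist_self] at h2
    exact h2
  have h3 : ∀ t : E n, ∫⁻ x, ‖F (t + x) - F x‖ₑ ^ n =
      (edist ((DomAddAct.mk t) +ᵥ (hL.toLp F)) (hL.toLp F)) ^ n := by
    intro t
    rw [DomAddAct.mk_vadd_toLp, Lp.edist_toLp_toLp, eLpNorm_pow_nat hn]
    rfl
  simp only [h3]
  have h4 := ENNReal.Tendsto.pow (n := n) h1
  rwa [zero_pow (by omega)] at h4

theorem jensen_pow (hn : 1 ≤ n) {ν : Measure (E n)} [IsProbabilityMeasure ν] {a : E n → ℝ≥0∞}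
    (ha : AEMeasurable a ν) : (∫⁻ t, a t ∂ν) ^ n ≤ ∫⁻ t, a t ^ n ∂ν := by
  rcases eq_or_lt_of_le hn with h | h
  · subst h; simp
  · have hn1 : (1 : ℝ) < n := by exact_mod_cast h
    have hpq : (n : ℝ).HolderConjugate (Real.conjExponent n) := Real.HolderConjugate.conjExponent hn1
    have h1 := ENNReal.lintegral_mul_le_Lp_mul_Lq ν hpq ha (g := fun _ => 1) aemeasurable_const
    simp only [Pi.mul_apply, mul_one, ENNReal.one_rpow, lintegral_one, measure_univ,
      ENNReal.one_rpow] at h1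
    have h2 : (∫⁻ t, a t ∂ν) ^ n ≤ ((∫⁻ t, a t ^ (n : ℝ) ∂ν) ^ (1 / (n : ℝ))) ^ n := by
      gcongr
    refine h2.trans (le_of_eq ?_)
    rw [← ENNReal.rpow_natCast, ← ENNReal.rpow_mul, one_div, inv_mul_cancel₀ (by positivity),
      ENNReal.rpow_one]
    simp only [ENNReal.rpow_natCast]

/-- the normed bump as a probability measure -/
noncomputable def bm (φ : ContDiffBump (0 : E n)) : Measure (E n) :=
  volume.withDensity fun t => ENNReal.ofReal (φ.normed volume t)

theorem bm_prob (φ : ContDiffBump (0 : E n)) : IsProbabilityMeasure (bm φ) := by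
  constructor
  unfold bm
  rw [withDensity_apply _ MeasurableSet.univ, Measure.restrict_univ,
    ← ofReal_integral_eq_lintegral_ofReal φ.integrable_normed
      (Eventually.of_forall φ.nonneg_normed), φ.integral_normed, ENNReal.ofReal_one]

theorem measurable_normed (φ : ContDiffBump (0 : E n)) :
    Measurable fun t => ENNReal.ofReal (φ.normed volume t) :=
  (φ.continuous_normed.measurable).ennreal_ofReal

theorem moll_bound (hn : 1 ≤ n) {F : E n → H} (hm : StronglyMeasurable F)
    (hi : Integrable F volume) (φ : ContDiffBump (0 : E n)) (x : E n) :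
    ‖(∫ y, φ.normed volume (x - y) • F y) - F x‖ₑ ^ n ≤
      ∫⁻ t, ‖F (x - t) - F x‖ₑ ^ n ∂(bm φ) := by
  have := bm_prob φ
  have hFx : StronglyMeasurable fun t => F (x - t) :=
    hm.comp_measurable (measurable_const.sub measurable_id)
  have e1 : ∫ y, φ.normed volume (x - y) • F y = ∫ t, φ.normed volume t • F (x - t) := by
    have h := integral_sub_left_eq_self (fun t => φ.normed volume t • F (x - t)) volume x
    rw [← h]
    refine integral_congr_ae (Eventually.of_forall fun y => ?_)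
    simp only [sub_sub_cancel]
  have i1 : Integrable (fun t => φ.normed volume t • F (x - t)) volume := by
    obtain ⟨C, hC⟩ := φ.continuous_normed.bounded_above_of_compact_support
      (φ.hasCompactSupport_normed (μ := volume))
    refine Integrable.mono' ((hi.comp_sub_left x).norm.const_mul C) ?_ ?_
    · exact (φ.continuous_normed.stronglyMeasurable.smul hFx).aestronglyMeasurable
    · refine Eventually.of_forall fun t => ?_
      rw [norm_smul]
      exact mul_le_mul_of_nonneg_right (hC t) (norm_nonneg _)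
  have i2 : Integrable (fun t => φ.normed volume t • F x) volume :=
    φ.integrable_normed.smul_const _
  have e2 : (∫ y, φ.normed volume (x - y) • F y) - F x =
      ∫ t, φ.normed volume t • (F (x - t) - F x) := by
    rw [e1]
    conv_lhs => rw [← φ.integral_normed_smul volume (F x)]
    rw [← integral_sub i1 i2]
    refine integral_congr_ae (Eventually.of_forall fun t => ?_)
    simp only [smul_sub]
  rw [e2]
  have hem : Measurable fun t => ‖F (x - t) - F x‖ₑ := (hFx.sub stronglyMeasurable_const).enorm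
  have h3 : ‖∫ t, φ.normed volume t • (F (x - t) - F x)‖ₑ ≤ ∫⁻ t, ‖F (x - t) - F x‖ₑ ∂(bm φ) := by
    refine (enorm_integral_le_lintegral_enorm _).trans (le_of_eq ?_)
    unfold bm
    rw [lintegral_withDensity_eq_lintegral_mul _ (measurable_normed φ) hem]
    refine lintegral_congr fun t => ?_
    rw [enorm_smul, Pi.mul_apply, Real.enorm_of_nonneg (φ.nonneg_normed t)]
  calc ‖∫ t, φ.normed volume t • (F (x - t) - F x)‖ₑ ^ n
      ≤ (∫⁻ t, ‖F (x - t) - F x‖ₑ ∂(bm φ)) ^ n := by gcongr
    _ ≤ _ := jensen_pow hn hem.aemeasurable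

theorem moll_lp (hn : 1 ≤ n) {F : E n → H} (hm : StronglyMeasurable F)
    (hi : Integrable F volume) (hL : MemLp F n volume) (φ : ℕ → ContDiffBump (0 : E n))
    (hφ : Tendsto (fun k => (φ k).rOut) atTop (𝓝 0)) :
    Tendsto (fun k => ∫⁻ x, ‖(∫ y, (φ k).normed volume (x - y) • F y) - F x‖ₑ ^ n) atTop
      (𝓝 0) := by
  have hT := tendsto_translate hn hL
  rw [ENNReal.tendsto_nhds_zero] at hT ⊢
  intro ε hε
  obtain ⟨δ, hδ, hδ'⟩ := Metric.eventually_nhds_iff.1 (hT ε hε)
  filter_upwards [hφ.eventually (gt_mem_nhds hδ)] with k hk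
  have := bm_prob (φ k)
  have h1 : ∫⁻ x, ‖(∫ y, (φ k).normed volume (x - y) • F y) - F x‖ₑ ^ n ≤
      ∫⁻ x, ∫⁻ t, ‖F (x - t) - F x‖ₑ ^ n ∂(bm (φ k)) :=
    lintegral_mono fun x => moll_bound hn hm hi (φ k) x
  refine h1.trans ?_
  have hmeas : Measurable fun z : E n × E n => ‖F (z.1 - z.2) - F z.1‖ₑ ^ n :=
    ((hm.comp_measurable (measurable_fst.sub measurable_snd)).sub
      (hm.comp_measurable measurable_fst)).enorm.pow_const n
  rw [lintegral_lintegral_swap (f := fun x t => ‖F (x - t) - F x‖ₑ ^ n) hmeas.aemeasurable]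
  have h2 : ∫⁻ t, ∫⁻ x, ‖F (x - t) - F x‖ₑ ^ n ∂volume ∂(bm (φ k)) ≤ ∫⁻ _, ε ∂(bm (φ k)) := by
    refine lintegral_mono_ae ?_
    unfold bm
    rw [ae_withDensity_iff (measurable_normed (φ k))]
    refine Eventually.of_forall fun t ht => ?_
    have hs : t ∈ Function.support ((φ k).normed volume) := by
      intro h0
      rw [h0, ENNReal.ofReal_zero] at ht
      exact ht rfl
    rw [(φ k).support_normed_eq, mem_ball_zero_iff] at hs
    have h3 := hδ' (y := -t) (by rw [dist_zero_right, norm_neg]; linarith)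
    refine (le_of_eq ?_).trans h3
    refine lintegral_congr fun x => ?_
    rw [neg_add_eq_sub]
  refine h2.trans (le_of_eq ?_)
  rw [lintegral_const, measure_univ, mul_one]

end Pool.Agent.SKQ.H55
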